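import Pool.Agent.Helper857.X11

set_option autoImplicit false

namespace Pool.Agent.Results.MP_096b72_nt.QOne

open Finset Pool.Agent.Helper857.Pad Pool.Agent.Helper857.X

/-- For every prime `p > 3` and every `a ≥ 1`, the number
`T_{p,a} = (1/p^a) * sum_{k < p^a} (5k+1)/(-192)^k * C(2k,k)^2 * C(3k,k)` is congruent to
`(p^a/3) + (p^(a-1)/3) * (5/18) * p^2 * B_{p-2}(1/3)` modulo `p^3`: the difference divided by `p^3`
has denominator prime to `p`. -/
theorem result : ∀ (p a : ℕ), p.Prime → 3 < p → 1 ≤ a →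
    ¬ p ∣ (((1 / (p:ℚ)^a * ∑ k ∈ Finset.range (p^a),
        (5 * (k:ℚ) + 1) / (-192)^k * ((2*k).choose k : ℚ)^2 * ((3*k).choose k : ℚ))
      - ((legendreSym 3 ((p:ℤ)^a) : ℚ) + (legendreSym 3 ((p:ℤ)^(a-1)) : ℚ) *
          (5/18) * (p:ℚ)^2 * (Polynomial.bernoulli (p-2)).eval (1/3))) / (p:ℚ)^3).den := by
  intro p a hpp hp3 ha
  have hp : Fact p.Prime := ⟨hpp⟩
  have hp4 : p ≠ 4 := by
    intro h
    rw [h] at hpp
    exact absurd hpp (by norm_num)
  have h5 : 5 ≤ p := by omega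
  have hodd : p % 2 = 1 := by
    rcases hp.out.eq_two_or_odd with h | h
    · omega
    · exact h
  obtain ⟨b, rfl⟩ : ∃ b, a = b + 1 := ⟨a-1, by omega⟩
  have hpa : (p^(b+1)) % 2 = 1 := by
    have : Odd (p^(b+1)) := (Nat.odd_iff.mpr hodd).pow
    exact Nat.odd_iff.mp this
  obtain ⟨R, hR⟩ : ∃ R, 2*R+1 = p^(b+1) := ⟨p^(b+1)/2, by omega⟩
  obtain ⟨R0, h0⟩ : ∃ R0, 2*R0+1 = p := ⟨p/2, by omega⟩
  have hp0 : (p:ℚ) ≠ 0 := by exact_mod_cast hp.out.ne_zero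
  have hT : 1 / (p:ℚ)^(b+1) * ∑ k ∈ Finset.range (p^(b+1)),
      (5 * (k:ℚ) + 1) / (-192)^k * ((2*k).choose k : ℚ)^2 * ((3*k).choose k : ℚ) = TT R := by
    unfold TT
    rw [hR]
    push_cast
    rw [one_div, inv_mul_eq_div]
    congr 1
    apply sum_congr rfl
    intro k _
    unfold t
    ring
  have hR3 : R % 3 ≠ 1 := R3 hR h5
  have hR03 : R0 % 3 ≠ 1 := R3 (a := 1) (by rw [pow_one]; exact h0) h5
  have l1 : ((legendreSym 3 ((p:ℤ)^(b+1)) : ℤ) : ℚ) = eps R := by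
    have := leg3 hR hR3
    push_cast at this
    exact this
  have l2 : ((legendreSym 3 (p:ℤ) : ℤ) : ℚ) = eps R0 := leg3 h0 hR03
  have l3 : ((legendreSym 3 ((p:ℤ)^b) : ℤ) : ℚ) = eps R * eps R0 := by
    have e : ((legendreSym 3 ((p:ℤ)^(b+1)) : ℤ) : ℚ) =
        ((legendreSym 3 ((p:ℤ)^b) : ℤ) : ℚ) * ((legendreSym 3 (p:ℤ) : ℤ) : ℚ) := by
      rw [pow_succ, legendreSym.mul]; push_cast; ring
    rw [l1, l2] at e
    have := eps_sq R0
    rw [e]; linear_combination (-((legendreSym 3 ((p:ℤ)^b) : ℤ) : ℚ)) * this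
  rw [hT, Nat.add_sub_cancel, l1, l3]
  have hI : I p 3 (TT R - (eps R + eps R * eps R0 * (5/18) * (p:ℚ)^2 *
      (Polynomial.bernoulli (p-2)).eval (1/3))) := by
    have f := final hR h0 h5
    have me : eps R ∈ Zp p := by
      rw [← sg_eps R]; exact int_mem _
    have := f.mul_mem me
    have e : (TT R * eps R - (1 + 5/18 * (p:ℚ)^2 * (eps R0 * (Polynomial.bernoulli (p-2)).eval (1/3)))) * eps R =
        TT R - (eps R + eps R * eps R0 * (5/18) * (p:ℚ)^2 * (Polynomial.bernoulli (p-2)).eval (1/3)) := by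
      linear_combination (TT R) * eps_sq R
    rw [← e]; exact this
  obtain ⟨y, hy, e⟩ := hI
  rw [e, mul_div_cancel_left₀ y (pow_ne_zero 3 hp0)]
  exact hy

end Pool.Agent.Results.MP_096b72_nt.QOne
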